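import Pool.Agent.Lib_helper80.SocFinal

/-!
More colours are not strongly omnisciently computably reducible to fewer colours, for Ramsey's
theorem in a fixed dimension `n ≥ 2`.
-/

namespace Pool.Agent.Results.MP_40eef6_lc.Colours

open Pool.Agent.Soc

/-- For `n ≥ 2` and `1 ≤ l < k`, `RT^n_k` is not strongly omnisciently computably reducible to
`RT^n_l`; in particular `RT^n_{k+1} ≰_soc RT^n_k` for all `n, k ≥ 2`. -/
theorem result : ∀ n k l : ℕ, 2 ≤ n → 1 ≤ l → l < k → ¬ SocReducible (RT n k) (RT n l) :=
  fun _ _ _ hn hl hlk => not_soc_colours hn hl hlk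

end Pool.Agent.Results.MP_40eef6_lc.Colours
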