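import Pool.Agent.Lib_helper80.SocFinal

/-!
Ramsey's theorem in dimension `n + 1` is not strongly omnisciently computably reducible to
Ramsey's theorem in dimension `n`, for any numbers of colours.
-/

namespace Pool.Agent.Results.MP_40eef6_lc.Dimension

open Pool.Agent.Soc

/-- For `n ≥ 1`, `k ≥ 2` and `l ≥ 1`, `RT^{n+1}_k` is not strongly omnisciently computably
reducible to `RT^n_l`; in particular `RT^{n+1}_k ≰_soc RT^n_k` for all `n, k ≥ 2`. -/
theorem result : ∀ n k l : ℕ, 1 ≤ n → 2 ≤ k → 1 ≤ l →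
    ¬ SocReducible (RT (n + 1) k) (RT n l) :=
  fun _ _ _ hn hk hl => not_soc_dimension hn hk hl

end Pool.Agent.Results.MP_40eef6_lc.Dimension
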